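import Pool.Agent.N107.KM.Mult
import Pool.Agent.Y226.ZR.Rand

/-!
# Zilber-Pink in `Y(1)^n` along metric sequences, for all families of rational curves at once

`Y(1)^n` is identified with `ℂ^n` by the elliptic modular function `jj = j = E₄³ / Δ`.  A special
subvariety of `Y(1)^n` of dimension `r` is given by a `SpecialVariety`: its points are the points
`x` with `x_i = const_i` for the constant coordinates, and `x_i = j (g_i z_l)` for the coordinates of
class `l`, `z_1, …, z_r` free in the upper half plane and `g_i` a fixed integral matrix of positive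
determinant.  The constants are singular moduli, or arbitrary numbers which are integral over the ring
generated by a finite set `Γ` of algebraic numbers.

*Families.*  Let `P_i (u; s, t)`, `Q_i (u; s, t)`, `i = 1, …, n`, be arbitrary forms of degree `d ≥ 1` in
`(s, t)` whose coefficients are integral polynomials in finitely many parameters `u_j`, `j ∈ J` (`J` can be
empty), such that the `n` resultants of `P_i`, `Q_i` and the resultants of `P_i Q_i`, `P_j Q_j`, `i ≠ j`, are
not identically zero.  For integers `m` and `u` one has the rational curve `V (m, u)` with the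
parametrization `x_i = P_i (u; s, t) / (m Q_i (u; s, t))`, `(s : t) ∈ ℙ¹`.

*Metric sequences.*  Let `r = 1 + |J|` and let `f_{i,0}, f_{i,1}, …` be, for every coordinate `i ≤ r`, a
sequence of real functions of class `C²` to which Koksma's theorem applies on an interval `[a_i, b_i]`: the
derivatives of different functions of the sequence differ by at least `δ > 0` and the second derivative of
`f_{i,l} - f_{i,n}` has a constant sign.  The parameter vectors are `(m, u)_n = (⌊f_{i,n}(α_i)⌋)_i`.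

Theorem: there is a number `G`, which depends only on the family, on `Γ` and on `ε > 0`, such that for all
Koksma sequences, for almost all `α` in the box, with ONE null set for ALL families (all `n`, `d`, `P_i`,
`Q_i`), all finite sets `Γ` of algebraic numbers and all `ε`, for all large `N` and for all but `ε N` of
the indices `t < N`, with `(m, u) = (m, u)_t`,

* `V (m, u)` has at most `G` points on special subvarieties of codimension at least two;
* all these points are on the special subvarieties defined by an isogeny of degree at most `G` between two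
  of the coordinates: one finite set of proper special subvarieties of `Y(1)^n` covers the atypical
  intersections of all these curves;
* `V (m, u)` is not contained in a proper special subvariety.

In particular the Zilber-Pink conjecture holds for `V (m, u)_t` for all `t` outside of a set of density
zero.  The same holds for `(m, u)_t = (⌊a_{i,t} α_i⌋)_i` and almost all real vectors `α`, for ANY sequences
`a_{i,t}`, `t = 0, 1, …`, of real numbers with mutual distances at least `δ > 0`: for any sequences of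
different integers, such as `t!`, `2^t`, any enumeration of any infinite set of integers; and for
`(m, u)_t = (⌊ξ_i α_i ^ e_t⌋)_i`, for any sequence of different natural numbers `e_t`, all `ξ_i ≠ 0` and
almost all `α` with all `α_i > 1`.  There is no condition of growth or regularity; the members of such a
sequence can have any distribution in the boxes of the parameter space.

*Proof.*  The local theorem of the starting library (`Y226.ZR.rand_prime`: if a prime `p > 16 (d + 1)^4`
divides `m` and no resultant, everything is bounded in terms of `p`, `n`, `d`).  The vectors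
`(0, u)` modulo `p` at which the resultants do not vanish have density about `1 / p`, so that the vectors
for which no prime `p ≤ T` can be used are contained in few residue classes modulo a product `q` of
primes (`N265.ORB.bad_small`); by Koksma's theorem in several variables (`N24.KM`) the members of a metric
sequence are equidistributed modulo `q` for almost all `α`.
-/

set_option autoImplicit false

namespace Pool.Agent.Results.MP_130685_nt.MetricSequences

open H294ZP UpperHalfPlane MeasureTheory Filter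
open Pool.Agent.N24.KM (Koksma)
open Pool.Agent.N107.KM (Own)

/-- A special subvariety of dimension `r` of `Y(1)^n`. The constant coordinates are those with
`cls i = none`. The allowed constants are the singular moduli and the numbers which are integral
over the ring generated by `Γ`. -/
structure SpecialVariety (Γ : Set ℂ) (n r : ℕ) where
  cls : Fin n → Option (Fin r)
  surj : ∀ l : Fin r, ∃ i, cls i = some l
  mat : Fin n → Matrix (Fin 2) (Fin 2) ℤ
  det_pos : ∀ i, 0 < (mat i).det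
  const : Fin n → ℂ
  allowed : ∀ i, (∃ τ : ℍ, IsCM τ ∧ const i = jj τ) ∨ IsIntegral (Algebra.adjoin ℤ Γ) (const i)

/-- The points of a special subvariety of `Y(1)^n`. -/
def SpecialVariety.locus {Γ : Set ℂ} {n r : ℕ} (Z : SpecialVariety Γ n r) : Set (Fin n → ℂ) :=
  {x | ∃ z : Fin r → ℍ, ∀ i, (Z.cls i = none → x i = Z.const i) ∧
    ∀ l, Z.cls i = some l → ∃ w : ℍ,
      (w : ℂ) * (Z.mat i 1 0 * z l + Z.mat i 1 1) = Z.mat i 0 0 * z l + Z.mat i 0 1 ∧
      x i = jj w}

/-- Coefficient systems: `c (i, 0, k)` is the coefficient of `s^k t^(d - k)` in the form `P_i`,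
and `c (i, 1, k)` the coefficient in the form `Q_i`. -/
abbrev Coeffs (n d : ℕ) (R : Type) : Type := Fin n × Fin 2 × Fin (d + 1) → R

/-- The value at `(s, t)` of the form `P_i` (`l = 0`) or `Q_i` (`l = 1`) of degree `d`. -/
noncomputable def form {n d : ℕ} (c : Coeffs n d ℤ) (i : Fin n) (l : Fin 2) (s t : ℂ) : ℂ :=
  ∑ k : Fin (d + 1), (c (i, l, k) : ℂ) * s ^ (k : ℕ) * t ^ (d - (k : ℕ))

/-- The rational curve with the parametrization `x_i = P_i (s, t) / (m Q_i (s, t))`. -/
def curve {n d : ℕ} (m : ℤ) (c : Coeffs n d ℤ) : Set (Fin n → ℂ) :=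
  {x | ∃ s t : ℂ, (s ≠ 0 ∨ t ≠ 0) ∧ ∀ i, (m : ℂ) * form c i 1 s t * x i = form c i 0 s t}

/-- The points of `S` on special subvarieties of codimension at least two. -/
def atypical (Γ : Set ℂ) {n : ℕ} (S : Set (Fin n → ℂ)) : Set (Fin n → ℂ) :=
  {x | x ∈ S ∧ ∃ (r : ℕ) (Z : SpecialVariety Γ n r), r + 2 ≤ n ∧ x ∈ Z.locus}

/-- `x` and `x'` are the `j`-invariants of elliptic curves which are connected by an isogeny of
degree `N`. -/
def Isogenous (N : ℕ) (x x' : ℂ) : Prop :=
  ∃ (τ τ' : ℍ) (g : Matrix (Fin 2) (Fin 2) ℤ), g.det = N ∧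
    (τ' : ℂ) * (g 1 0 * τ + g 1 1) = g 0 0 * τ + g 0 1 ∧ x = jj τ ∧ x' = jj τ'

/-- The conclusion of the Zilber-Pink conjecture for the curve `S` with the explicit bound `G`: at most
`G` atypical points, all of them on the subvarieties given by isogenies of degree at most `G` between two
coordinates, and `S` is in no proper special subvariety. -/
def ZilberPink (Γ : Set ℂ) (G : ℕ) {n : ℕ} (S : Set (Fin n → ℂ)) : Prop :=
  (atypical Γ S).Finite ∧ (atypical Γ S).ncard ≤ G ∧
  (∀ x ∈ atypical Γ S, ∃ j l : Fin n, j ≠ l ∧ ∃ N : ℕ, 0 < N ∧ N ≤ G ∧ Isogenous N (x j) (x l)) ∧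
  ∀ (r : ℕ) (Z : SpecialVariety Γ n r), r < n → ¬ S ⊆ Z.locus

/-- The form `P_i` or `Q_i` as a polynomial in `s` (for `t = 1`). -/
noncomputable def poly {R : Type} [CommRing R] {n d : ℕ} (c : Coeffs n d R) (i : Fin n) (l : Fin 2) :
    Polynomial R :=
  ∑ k : Fin (d + 1), Polynomial.C (c (i, l, k)) * Polynomial.X ^ (k : ℕ)

/-- The resultants (of forms in two variables) of `P_i`, `Q_i` and of `P_i Q_i`, `P_j Q_j` are not zero. -/
def NoCommonZeros {R : Type} [CommRing R] {n d : ℕ} (c : Coeffs n d R) : Prop :=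
  (∀ i, (poly c i 0).resultant (poly c i 1) d d ≠ 0) ∧
  ∀ i j, i ≠ j → (poly c i 0 * poly c i 1).resultant (poly c j 0 * poly c j 1) (d + d) (d + d) ≠ 0

/-- The member of the family at the parameter vector `(m, u)`; `m` is the coordinate `none`. -/
noncomputable def member {J : Type} {n d : ℕ} (A : Coeffs n d (MvPolynomial J ℤ))
    (v : Option J → ℤ) : Set (Fin n → ℂ) :=
  curve (v none) (fun a => MvPolynomial.eval (fun j => v (some j)) (A a))

/-- Special subvarieties in the form used in the proof. -/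
def SpecialVariety.toSV {Γ : Set ℂ} {n r : ℕ} (Z : SpecialVariety Γ n r) :
    Pool.Agent.Y226.ZM.SV Γ n r where
  cls := Z.cls
  mat := Z.mat
  det_pos := Z.det_pos
  const := Z.const
  int := fun i => by
    rcases Z.allowed i with ⟨τ, hτ, h⟩ | h
    · rw [h]
      exact (singular_modulus_integral τ hτ).tower_top
    · exact h

open Pool.Agent.Y226.ZR in
/-- The local theorem: a prime which divides `m` and none of the resultants. -/
theorem good_of_prime (n d : ℕ) (hd : 0 < d) (p : ℕ) (hp : p.Prime) (hpD : 16 * (d + 1) ^ 4 < p) :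
    ∃ G : ℕ, ∀ (m : ℤ) (c : Coeffs n d ℤ), m ≠ 0 → (p : ℤ) ∣ m →
      ¬ (p : ℤ) ∣ MvPolynomial.eval c (Rr n d) →
      ∀ Γ : Finset ℂ, (∀ γ ∈ Γ, ∃ m : ℕ, ¬ p ∣ m ∧ IsIntegral ℤ ((m : ℂ) * γ)) →
      ZilberPink (Γ : Set ℂ) G (curve m c) := by
  obtain ⟨G, hG⟩ := rand_prime n d hd p hp hpD
  refine ⟨G, fun m c hm hpm hR Γ hΓ => ?_⟩
  obtain ⟨h1, h2, h3, h4⟩ := hG m c hm hpm hR Γ hΓ
  have hsub : atypical Γ (curve m c) ⊆
      {x | x ∈ crvR m c ∧
        ∃ (r : ℕ) (Z : Pool.Agent.Y226.ZM.SV (Γ : Set ℂ) n r), r + 2 ≤ n ∧ x ∈ Z.locus} := by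
    rintro x ⟨hx, r, Z, hr, hZ⟩
    exact ⟨hx, r, Z.toSV, hr, hZ⟩
  refine ⟨h2.subset hsub, (Set.ncard_le_ncard hsub h2).trans h3, ?_, ?_⟩
  · rintro x ⟨hx, r, Z, hr, hZ⟩
    obtain ⟨j, l, hjl, N, hN0, hN, τ, τ', a, b, c, d, hdet, hτ, hxj, hxl⟩ :=
      h1 x hx r Z.toSV hr hZ
    refine ⟨j, l, hjl, N, hN0, hN, τ, τ', !![a, b; c, d], ?_, ?_, hxj, hxl⟩
    · rw [Matrix.det_fin_two_of]
      exact hdet
    · simpa using hτ
  · intro r Z hr hsub'
    exact h4 r Z.toSV hr hsub'

theorem zilberPink_mono {Γ : Set ℂ} {G G' : ℕ} (h : G ≤ G') {n : ℕ} {S : Set (Fin n → ℂ)}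
    (hS : ZilberPink Γ G S) : ZilberPink Γ G' S := by
  refine ⟨hS.1, hS.2.1.trans h, fun x hx => ?_, hS.2.2.2⟩
  obtain ⟨j, l, hjl, N, hN0, hN, hI⟩ := hS.2.2.1 x hx
  exact ⟨j, l, hjl, N, hN0, hN.trans h, hI⟩

section
variable {J : Type} [Fintype J] [DecidableEq J]

open Pool.Agent.Y226.ZR in
/-- The local theorem for a family: there are `R ≠ 0` and `T₀` such that everything is bounded for the
parameter vectors with the property `Own R T₀ T'`. -/
theorem local_family (n d : ℕ) (hd : 0 < d) (A : Coeffs n d (MvPolynomial J ℤ))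
    (hA : NoCommonZeros A) (Γ : Finset ℂ) (hΓ : ∀ γ ∈ Γ, IsAlgebraic ℚ γ) :
    ∃ (R : MvPolynomial J ℤ) (T₀ : ℕ), R ≠ 0 ∧ ∀ T' : ℕ, ∃ G : ℕ, ∀ c : Option J → ℤ,
      Own R T₀ T' c → ZilberPink (Γ : Set ℂ) G (member A c) := by
  classical
  -- the polynomial
  set R : MvPolynomial J ℤ := MvPolynomial.aeval A (Rr n d) with hR
  have hR0 : R ≠ 0 := by
    rw [hR]
    unfold Rr
    rw [map_mul, map_prod, map_prod]
    refine mul_ne_zero (Finset.prod_ne_zero_iff.2 fun i _ => ?_)
      (Finset.prod_ne_zero_iff.2 fun q hq => ?_)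
    · have h1 := rs1_map (MvPolynomial.aeval A : MvPolynomial (Idx n d) ℤ →ₐ[ℤ] MvPolynomial J ℤ).toRingHom
        (MvPolynomial.X : Idx n d → MvPolynomial (Idx n d) ℤ) i
      simp only [AlgHom.toRingHom_eq_coe, RingHom.coe_coe, MvPolynomial.aeval_X] at h1
      rw [h1]
      exact hA.1 i
    · have h1 := rs2_map (MvPolynomial.aeval A : MvPolynomial (Idx n d) ℤ →ₐ[ℤ] MvPolynomial J ℤ).toRingHom
        (MvPolynomial.X : Idx n d → MvPolynomial (Idx n d) ℤ) q.1 q.2
      simp only [AlgHom.toRingHom_eq_coe, RingHom.coe_coe, MvPolynomial.aeval_X] at h1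
      rw [h1]
      exact hA.2 q.1 q.2 (Finset.mem_filter.1 hq).2
  have hReval : ∀ u : J → ℤ, MvPolynomial.eval u R =
      MvPolynomial.eval (fun a => MvPolynomial.eval u (A a)) (Rr n d) := by
    intro u
    rw [hR, MvPolynomial.map_aeval]
    have e : (MvPolynomial.eval u).comp (algebraMap ℤ (MvPolynomial J ℤ)) = RingHom.id ℤ :=
      Subsingleton.elim _ _
    rw [e]
    rfl
  have hden : ∀ γ : ℂ, ∃ m : ℕ, γ ∈ Γ → 0 < m ∧ IsIntegral ℤ ((m : ℂ) * γ) := by
    intro γ
    by_cases h : γ ∈ Γ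
    · obtain ⟨m, hm⟩ := exists_den (hΓ γ h)
      exact ⟨m, fun _ => hm⟩
    · exact ⟨0, fun h' => absurd h' h⟩
  choose M hM using hden
  set T₀ := 16 * (d + 1) ^ 4 + ∑ γ ∈ Γ, M γ with hT₀
  refine ⟨R, T₀, hR0, fun T' => ?_⟩
  have hpr : ∀ p : ℕ, ∃ G : ℕ, p.Prime → 16 * (d + 1) ^ 4 < p →
      ∀ (m : ℤ) (c : Coeffs n d ℤ), m ≠ 0 → (p : ℤ) ∣ m →
      ¬ (p : ℤ) ∣ MvPolynomial.eval c (Rr n d) →
      ∀ Γ : Finset ℂ, (∀ γ ∈ Γ, ∃ m : ℕ, ¬ p ∣ m ∧ IsIntegral ℤ ((m : ℂ) * γ)) →
      ZilberPink (Γ : Set ℂ) G (curve m c) := by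
    intro p
    by_cases h : p.Prime ∧ 16 * (d + 1) ^ 4 < p
    · obtain ⟨G, hG⟩ := good_of_prime n d hd p h.1 h.2
      exact ⟨G, fun _ _ => hG⟩
    · exact ⟨0, fun h1 h2 => absurd ⟨h1, h2⟩ h⟩
  choose Gp hGp using hpr
  refine ⟨∑ p ∈ Finset.range (T' + 1), Gp p, ?_⟩
  rintro c ⟨h0, p, hp, hpT₀, hpT', hpm, hpR⟩
  have hpD : 16 * (d + 1) ^ 4 < p := by omega
  have hΓp : ∀ γ ∈ Γ, ∃ m : ℕ, ¬ p ∣ m ∧ IsIntegral ℤ ((m : ℂ) * γ) := by
    intro γ hγ
    obtain ⟨h5, h6⟩ := hM γ hγ
    refine ⟨M γ, fun h7 => ?_, h6⟩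
    have h8 := Nat.le_of_dvd h5 h7
    have h9 : M γ ≤ ∑ γ ∈ Γ, M γ := Finset.single_le_sum (fun _ _ => Nat.zero_le _) hγ
    omega
  have hle : Gp p ≤ ∑ p ∈ Finset.range (T' + 1), Gp p :=
    Finset.single_le_sum (fun _ _ => Nat.zero_le _) (Finset.mem_range.2 (by omega))
  rw [hReval] at hpR
  exact zilberPink_mono hle (hGp p hp hpD _ _ h0 hpm hpR Γ hΓp)

/-- For all families of rational curves in `Y(1)^n` (all `n` and `d`, the parameters are indexed by
`Option J`), all finite sets `Γ` of algebraic numbers and all `ε > 0`, the Zilber-Pink conjecture with the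
bound `G n d A Γ ε` holds for the member at `c t` for all large `N` and all but at most `ε N` of the
indices `t < N`. -/
def UsuallyZilberPink (G : (n d : ℕ) → Coeffs n d (MvPolynomial J ℤ) → Finset ℂ → ℝ → ℕ)
    (c : ℕ → Option J → ℤ) : Prop :=
  ∀ n d : ℕ, 0 < d → ∀ A : Coeffs n d (MvPolynomial J ℤ), NoCommonZeros A →
    ∀ Γ : Finset ℂ, (∀ γ ∈ Γ, IsAlgebraic ℚ γ) → ∀ ε : ℝ, 0 < ε → ∀ᶠ N : ℕ in atTop,
      ({t : ℕ | t < N ∧ ¬ ZilberPink (Γ : Set ℂ) (G n d A Γ ε) (member A (c t))}.ncard : ℝ) ≤ ε * N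

/-- **Zilber-Pink in `Y(1)^n` along metric sequences, for all families of rational curves.** -/
theorem result (J : Type) [Fintype J] [DecidableEq J] :
    ∃ G : (n d : ℕ) → Coeffs n d (MvPolynomial J ℤ) → Finset ℂ → ℝ → ℕ,
    -- integral parts of Koksma sequences
    (∀ (a b : Option J → ℝ) (f : Option J → ℕ → ℝ → ℝ), (∀ i, a i < b i) →
      (∀ i, Koksma (a i) (b i) (f i)) →
      ∀ᵐ α : Option J → ℝ, (∀ i, α i ∈ Set.Icc (a i) (b i)) →
        UsuallyZilberPink G (fun t i => ⌊f i t (α i)⌋)) ∧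
    -- integral parts of linear sequences
    (∀ (a : Option J → ℕ → ℝ) (δ : ℝ), 0 < δ → (∀ i l t, l ≠ t → δ ≤ |a i l - a i t|) →
      ∀ᵐ α : Option J → ℝ, UsuallyZilberPink G (fun t i => ⌊a i t * α i⌋)) ∧
    -- integral parts of powers
    (∀ (e : ℕ → ℕ) (ξ : Option J → ℝ), Function.Injective e → (∀ i, ξ i ≠ 0) →
      ∀ᵐ α : Option J → ℝ, (∀ i, 1 < α i) →
        UsuallyZilberPink G (fun t i => ⌊ξ i * α i ^ e t⌋)) := by
  classical
  obtain ⟨T', hT1, hT2, hT3⟩ := Pool.Agent.N107.KM.mult_metric (J := J)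
  have hex : ∀ (n d : ℕ) (A : Coeffs n d (MvPolynomial J ℤ)) (Γ : Finset ℂ),
      ∃ (R : MvPolynomial J ℤ) (T₀ : ℕ) (G : ℕ → ℕ), 0 < d → NoCommonZeros A →
        (∀ γ ∈ Γ, IsAlgebraic ℚ γ) → R ≠ 0 ∧ ∀ (k : ℕ) (c : Option J → ℤ),
          Own R T₀ (T' R T₀ k) c → ZilberPink (Γ : Set ℂ) (G k) (member A c) := by
    intro n d A Γ
    by_cases h : 0 < d ∧ NoCommonZeros A ∧ ∀ γ ∈ Γ, IsAlgebraic ℚ γ
    · obtain ⟨R, T₀, hR, hG⟩ := local_family n d h.1 A h.2.1 Γ h.2.2
      choose G hG using hG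
      exact ⟨R, T₀, fun k => G (T' R T₀ k), fun _ _ _ => ⟨hR, fun k c hc => hG _ c hc⟩⟩
    · exact ⟨0, 0, fun _ => 0, fun h1 h2 h3 => absurd ⟨h1, h2, h3⟩ h⟩
  choose R T₀ G hG using hex
  have key : ∀ c : ℕ → Option J → ℤ,
      (∀ R : MvPolynomial J ℤ, R ≠ 0 → ∀ T₀ k : ℕ, ∀ᶠ N : ℕ in atTop,
        (({t : ℕ | t < N ∧ ¬ Own R T₀ (T' R T₀ k) (c t)}.ncard : ℕ) : ℝ) ≤
          1 / ((k : ℝ) + 1) * N) →
      UsuallyZilberPink (fun n d A Γ ε => G n d A Γ ⌈1 / ε⌉₊) c := by
    intro c hc n d hd A hA Γ hΓ ε hε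
    obtain ⟨hR, hZ⟩ := hG n d A Γ hd hA hΓ
    filter_upwards [hc (R n d A Γ) hR (T₀ n d A Γ) ⌈1 / ε⌉₊] with N hN
    have h1 : 1 / ((⌈1 / ε⌉₊ : ℝ) + 1) ≤ ε := by
      rw [div_le_iff₀ (by positivity)]
      have h2 : 1 / ε ≤ ⌈1 / ε⌉₊ := Nat.le_ceil _
      rw [div_le_iff₀ hε] at h2
      nlinarith
    refine le_trans ?_ (hN.trans (mul_le_mul_of_nonneg_right h1 (Nat.cast_nonneg N)))
    refine Nat.cast_le.2 (Set.ncard_le_ncard ?_ ((Set.finite_Iio N).subset fun t ht => ht.1))
    rintro t ⟨ht, hbad⟩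
    exact ⟨ht, fun h => hbad (hZ _ _ h)⟩
  refine ⟨fun n d A Γ ε => G n d A Γ ⌈1 / ε⌉₊, fun a b f hab hf => ?_, fun a δ hδ ha => ?_,
    fun e ξ he hξ => ?_⟩
  · filter_upwards [hT1 a b f hab hf] with α hα hbox
    exact key _ (hα hbox)
  · filter_upwards [hT2 a δ hδ ha] with α hα
    exact key _ hα
  · filter_upwards [hT3 e ξ he hξ] with α hα hpos
    exact key _ (hα hpos)

end

end Pool.Agent.Results.MP_130685_nt.MetricSequences
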