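import Pool.Agent.N101.ZQ.Gr
import Pool.Agent.N101.ZQ.Ma
import Pool.Agent.N101.ZQ.Fc

set_option autoImplicit false

/-! # Zilber–Pink for all `Y(1)^n` and the powers of any one graph of sums

`Y(1)^ι` is `ℂ^ι` through the modular function `j`. The notions `Subvariety`, `Special`, `vdim`, `IsComp`,
`Atypical`, `defect`, `Optimal` are in `Pool/Agent/N101/ZP/YDef.lean`, the notions `AtypicalSub`,
`MaxAtypical` (maximal atypical subvarieties, the ones of the problem) in
`Pool/Agent/N101/ZQ/Stm.lean`, and `graphPow` in `Pool/Agent/N101/ZQ/Gr.lean`.

Let `φ_{j i}`, `j ∈ β`, `i ∈ α`, be polynomials in one variable with algebraic coefficients. They define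
the subvariety `Γ = {(x, y) : y_j = Σ_i φ_{j i}(x_i) for all j}` of `Y(1)^(α ⊕ β)`. For polynomials of
degree at most one these are, up to the order of the coordinates, all the linear (affine) subvarieties
defined over the algebraic numbers. The theorem: as soon as one of the `y_j` really depends on two of the
`x_i`, the powers `Γ^M` are universal: the conjecture for all subvarieties of all `Y(1)^n` is equivalent
to the finiteness of the sets of the optimal subvarieties of the powers `Γ^M`.

If no `y_j` depends on two of the `x_i` then `Γ` is defined by equations in two coordinates, so this is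
the natural condition.

Proof. For the plane `x + y = z` this was shown in `MP_d83ecd_ag.PowersOfAPlane`, with the help of the
Hecke correspondence `T_2`. Here the plane is obtained from `Γ`: with all but two of the `x_i` at the
special point `0` one gets `z = f(x) + g(y)` with non-constant `f`, `g`. Then `X + Y = Z` if and only if there
are `x, y, z, w, a` with `X = f(x) + g(0)`, `Y = f(0) + g(y)`, `a = f(x) + g(y)`, `Z = f(z) + g(0)`,
`0 = f(0) + g(w)`, `a = f(z) + g(w)`, and these are algebraic over `X, Y, Z`. -/

namespace Pool.Agent.Results.MP_130685_nt.PowersOfGraphs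

open Pool.Agent.N101.Y1 Pool.Agent.N101.ZQ

/-- Every subvariety of every `Y(1)^n` has only finitely many maximal atypical subvarieties if and only
if, for every `M`, the `M`-th power of the graph `y_j = Σ_i φ_{j i}(x_i)`, `j ∈ β`, has only finitely
many optimal subvarieties; here `φ` is any family of polynomials with algebraic coefficients such that
for some `j` at least two of the `φ_{j i}` are not constant. -/
theorem result {α β : Type} [Fintype α] [Fintype β] (φ : β → α → Polynomial ℂ)
    (halg : ∀ j i k, IsAlgebraic ℚ ((φ j i).coeff k)) {i i' : α} {j : β} (hii : i ≠ i')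
    (hi : (φ j i).natDegree ≠ 0) (hi' : (φ j i').natDegree ≠ 0) :
    (∀ (ι : Type) [Fintype ι] (V : Set (ι → ℂ)), Subvariety V → {A | MaxAtypical A V}.Finite) ↔
      ∀ M : ℕ, {A | Optimal A (graphPow φ M)}.Finite := by
  refine Iff.trans ma ?_
  constructor
  · intro h M
    exact h _ _ (zclosed_graphPow φ M)
  · intro h ι _ V hV
    exact optimal_of_graph fc φ halg hii hi hi' h ι V hV

end Pool.Agent.Results.MP_130685_nt.PowersOfGraphs
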